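import Pool.Agent.Helper16.SYM.Defs

/-!
# SYM-C2: integrality of the tensor powers of a curve over the elementary symmetric functions
-/

set_option autoImplicit false
set_option linter.unusedVariables false

namespace Pool.Agent.Helper39.SYM

open Polynomial
open scoped TensorProduct
open Pool.Agent.Helper16.SYM

universe u

/-- Integrality over the elementary symmetric functions, for a ring generated by the images of
`N` copies of the coordinate ring of a curve. -/
theorem integral_gen {K T : Type*} [Field K] {G : K[X][X]} (hG : G.Monic) {N : ℕ} [CommRing T]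
    [Algebra K T] (s : Fin N → (AdjoinRoot G →ₐ[K] T))
    (hgen : ∀ D : Subring T, (∀ j a, s j a ∈ D) → (∀ k : K, algebraMap K T k ∈ D) → ∀ t, t ∈ D)
    (x : T) : (MvPolynomial.aeval (R := K) (fun i : Fin N =>
      (∏ j, (X - C (s j (AdjoinRoot.of G X)))).coeff i)).toRingHom.IsIntegralElem x := by
  classical
  rcases subsingleton_or_nontrivial T with hsub | hnon
  · exact ⟨1, monic_one, Subsingleton.elim _ _⟩
  set P : T[X] := ∏ j, (X - C (s j (AdjoinRoot.of G X))) with hP
  set ι := MvPolynomial.aeval (R := K) (fun i : Fin N => P.coeff i) with hι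
  letI : Algebra (MvPolynomial (Fin N) K) T := ι.toRingHom.toAlgebra
  have hmap : ∀ a, algebraMap (MvPolynomial (Fin N) K) T a = ι a := fun a => rfl
  set D := integralClosure (MvPolynomial (Fin N) K) T with hD
  have hPm : P.Monic := monic_prod_of_monic _ _ fun j _ => monic_X_sub_C _
  have hPd : P.natDegree = N := by
    rw [hP, natDegree_prod_of_monic _ _ fun j _ => monic_X_sub_C _]
    simp
  -- the generic monic polynomial
  set Q : (MvPolynomial (Fin N) K)[X] :=
    X ^ N + ∑ i : Fin N, C (MvPolynomial.X i) * X ^ (i : ℕ) with hQ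
  have hQlt : (∑ i : Fin N, C (MvPolynomial.X i : MvPolynomial (Fin N) K) * X ^ (i : ℕ)).degree
      < (N : WithBot ℕ) := degree_sum_fin_lt _
  have hQm : Q.Monic := monic_X_pow_add hQlt
  have hQP : Q.map ι.toRingHom = P := by
    have h1 := hPm.as_sum
    rw [hPd] at h1
    rw [h1, hQ, Polynomial.map_add, Polynomial.map_pow, Polynomial.map_X, Polynomial.map_sum,
      Finset.sum_range]
    congr 1
    apply Finset.sum_congr rfl
    intro i _
    rw [Polynomial.map_mul, Polynomial.map_pow, Polynomial.map_X, Polynomial.map_C]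
    congr 2
    rw [hι]
    simp
  have hτ : ∀ j, s j (AdjoinRoot.of G X) ∈ D := by
    intro j
    rw [hD, mem_integralClosure_iff]
    refine ⟨Q, hQm, ?_⟩
    have h2 : eval₂ ι.toRingHom (s j (AdjoinRoot.of G X)) Q = 0 := by
      rw [← eval_map, hQP, hP, eval_prod]
      apply Finset.prod_eq_zero (Finset.mem_univ j)
      simp
    exact h2
  have hK : ∀ k : K, algebraMap K T k ∈ D := by
    intro k
    have h1 : algebraMap K T k = algebraMap (MvPolynomial (Fin N) K) T (MvPolynomial.C k) := by
      rw [hmap, hι]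
      simp
    rw [h1]
    exact Subalgebra.algebraMap_mem _ _
  have hof : ∀ j (p : K[X]), s j (AdjoinRoot.of G p) ∈ D := by
    intro j p
    induction p using Polynomial.induction_on' with
    | add p q hp hq => rw [map_add, map_add]; exact add_mem hp hq
    | monomial n a =>
      rw [← C_mul_X_pow_eq_monomial, map_mul, map_mul, map_pow, map_pow]
      refine mul_mem ?_ (pow_mem (hτ j) n)
      have h1 : AdjoinRoot.of G (C a) = algebraMap K (AdjoinRoot G) a := by
        rw [AdjoinRoot.algebraMap_eq']
        rfl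
      rw [h1, AlgHom.commutes]
      exact hK a
  have hroot : ∀ j, s j (AdjoinRoot.root G) ∈ D := by
    intro j
    set g : K[X] →+* D := ((s j : AdjoinRoot G →+* T).comp (AdjoinRoot.of G)).codRestrict D
      (fun p => hof j p) with hg
    have hint : IsIntegral D (s j (AdjoinRoot.root G)) := by
      refine ⟨G.map g, hG.map g, ?_⟩
      rw [eval₂_map]
      have h2 : (algebraMap D T).comp g = (s j : AdjoinRoot G →+* T).comp (AdjoinRoot.of G) := by
        ext p <;> rfl
      rw [h2, show s j (AdjoinRoot.root G) = (s j : AdjoinRoot G →+* T) (AdjoinRoot.root G) from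
        rfl, ← hom_eval₂, AdjoinRoot.eval₂_root, map_zero]
    exact isIntegral_trans (R := MvPolynomial (Fin N) K) (A := D) _ hint
  have hall : ∀ j a, s j a ∈ D := by
    intro j a
    obtain ⟨p, rfl⟩ := AdjoinRoot.mk_surjective a
    induction p using Polynomial.induction_on' with
    | add p q hp hq => rw [map_add, map_add]; exact add_mem hp hq
    | monomial n a =>
      rw [← C_mul_X_pow_eq_monomial, map_mul, map_mul, map_pow, map_pow, AdjoinRoot.mk_X,
        AdjoinRoot.mk_C]
      exact mul_mem (hof j a) (pow_mem (hroot j) n)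
  exact hgen D.toSubring hall hK x

/-- The tensor power is generated by the images of the factors. -/
theorem gen_tensor {K : Type*} [Field K] {A : Type*} [CommRing A] [Algebra K A] {N : ℕ}
    (D : Subring (⨂[K] _ : Fin N, A))
    (h1 : ∀ j (a : A), PiTensorProduct.singleAlgHom (R := K) (A := fun _ : Fin N => A) j a ∈ D)
    (h2 : ∀ k : K, algebraMap K (⨂[K] _ : Fin N, A) k ∈ D) (t : ⨂[K] _ : Fin N, A) : t ∈ D := by
  classical
  induction t using PiTensorProduct.induction_on with
  | smul_tprod r f =>
    have h3 : PiTensorProduct.tprod K f =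
        ∏ j, PiTensorProduct.singleAlgHom (R := K) (A := fun _ : Fin N => A) j (f j) := by
      simp only [PiTensorProduct.singleAlgHom_apply]
      rw [← PiTensorProduct.tprod_prod]
      congr 1
      funext i
      rw [Finset.prod_apply]
      simp only [MonoidHom.mulSingle_apply]
      rw [Finset.prod_eq_single i]
      · simp
      · intro b _ hb
        rw [Pi.mulSingle_eq_of_ne (Ne.symm hb)]
      · intro h
        exact absurd (Finset.mem_univ i) h
    rw [Algebra.smul_def, h3]
    exact mul_mem (h2 r) (Subring.prod_mem _ fun j _ => h1 j _)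
  | add x y hx hy => exact add_mem hx hy

/-- C2 -/
theorem exists_gamma {K : Type u} [Field K] {G : K[X][X]} (hG : G.Monic) (hr : 0 < G.natDegree)
    {N : ℕ} [IsDomain (⨂[K] _ : Fin N, AdjoinRoot G)] (z : ⨂[K] _ : Fin N, AdjoinRoot G)
    (hz : z ≠ 0) :
    ∃ Γ : MvPolynomial (Fin N) K, Γ ≠ 0 ∧ ∀ (Ω : Type u) [Field Ω] [Algebra K Ω]
      (φ : Fin N → (AdjoinRoot G →ₐ[K] Ω)),
      MvPolynomial.aeval (fun i : Fin N =>
        (∏ j, (X - C (φ j (AdjoinRoot.of G X)))).coeff i) Γ ≠ 0 → evT φ z ≠ 0 := by
  classical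
  set s : Fin N → (AdjoinRoot G →ₐ[K] (⨂[K] _ : Fin N, AdjoinRoot G)) :=
    fun j => PiTensorProduct.singleAlgHom (R := K) (A := fun _ : Fin N => AdjoinRoot G) j with hs
  set P : (⨂[K] _ : Fin N, AdjoinRoot G)[X] := ∏ j, (X - C (s j (AdjoinRoot.of G X))) with hP
  set ι := MvPolynomial.aeval (R := K) (fun i : Fin N => P.coeff i) with hι
  let _ : Algebra (MvPolynomial (Fin N) K) (⨂[K] _ : Fin N, AdjoinRoot G) := ι.toRingHom.toAlgebra
  have hint : IsIntegral (MvPolynomial (Fin N) K) z :=
    integral_gen hG s (fun D h1 h2 t => gen_tensor D h1 h2 t) z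
  have hne := Ideal.comap_ne_bot_of_integral_mem (I := Ideal.span {z}) hz
    (Ideal.mem_span_singleton_self z) hint
  obtain ⟨Γ, hΓ, hΓ0⟩ := Submodule.exists_mem_ne_zero_of_ne_bot hne
  refine ⟨Γ, hΓ0, ?_⟩
  intro Ω _ _ φ hne0 hev
  rw [Ideal.mem_comap, Ideal.mem_span_singleton] at hΓ
  obtain ⟨y, hy⟩ := hΓ
  apply hne0
  have h1 : evT φ (ι Γ) = 0 := by
    have : ι Γ = z * y := hy
    rw [this, map_mul, hev, zero_mul]
  rw [← h1, hι, ← AlgHom.comp_apply, MvPolynomial.comp_aeval]
  congr 1
  congr 1
  funext i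
  have h2 : (P.map ((evT φ : (⨂[K] _ : Fin N, AdjoinRoot G) →ₐ[K] Ω) :
      (⨂[K] _ : Fin N, AdjoinRoot G) →+* Ω)).coeff i = evT φ (P.coeff i) := by
    rw [coeff_map]
    rfl
  rw [← h2, hP, Polynomial.map_prod]
  congr 1
  apply Finset.prod_congr rfl
  intro j _
  rw [Polynomial.map_sub, Polynomial.map_X, Polynomial.map_C]
  congr 2
  have h3 : evT φ (s j (AdjoinRoot.of G X)) = φ j (AdjoinRoot.of G X) := by
    rw [hs]
    simp only [PiTensorProduct.singleAlgHom_apply]
    rw [evT_tprod, Finset.prod_eq_single j]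
    · simp
    · intro b _ hb
      rw [MonoidHom.mulSingle_apply, Pi.mulSingle_eq_of_ne hb, map_one]
    · intro h
      exact absurd (Finset.mem_univ j) h
  exact h3.symm

end Pool.Agent.Helper39.SYM
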